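import Pool.Agent.TAU.Central
import Pool.Agent.TAU.Gen
import Pool.Agent.TAU.Root

/-!
The Mennicke symbols of `SL_3(ℤ)` relative to `M`: the class modulo the normal closure of the
`1 + M x e_ij` of the matrices in the upper left block which are congruent to `1` modulo `M`
depends only on the first row `(a, b)`, does not change if a multiple of `b` is added to `a` or a
multiple of `M a` to `b`, and is multiplicative in `b`.
-/

set_option autoImplicit false

namespace Pool.Agent.CSPM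

open Pool.Agent.TAU

/-- the matrix `(a b; c d)` in the upper left block of `SL_3(ℤ)` -/
def blk (a b c d : ℤ) (h : a * d - b * c = 1) : SL 3 :=
  ⟨!![a, b, 0; c, d, 0; 0, 0, 1], by
    rw [Matrix.det_fin_three]
    simp
    linarith⟩

theorem blk_val (a b c d : ℤ) (h : a * d - b * c = 1) :
    (blk a b c d h).1 = !![a, b, 0; c, d, 0; 0, 0, 1] := rfl

theorem blk_inBlock (a b c d : ℤ) (h : a * d - b * c = 1) : InBlock (blk a b c d h) := by
  intro i j hij
  rw [blk_val]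
  fin_cases i <;> fin_cases j <;> simp_all

theorem blk_cong (M : ℕ) (a b c d : ℤ) (h : a * d - b * c = 1) (ha : (M : ℤ) ∣ a - 1)
    (hb : (M : ℤ) ∣ b) (hc : (M : ℤ) ∣ c) (hd : (M : ℤ) ∣ d - 1) : Cong M (blk a b c d h) := by
  intro i j
  rw [blk_val]
  fin_cases i <;> fin_cases j <;> simp [ha, hb, hc, hd]

theorem el_val3 (i j : Fin 3) (h : i ≠ j) (t : ℤ) :
    (el i j h t).1 = 1 + Matrix.single i j t := rfl

/-- `P e_0 = e_1`, `P e_1 = e_2`, `P e_2 = e_0` -/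
def cyc : SL 3 := ⟨!![0, 0, 1; 1, 0, 0; 0, 1, 0], by
  rw [Matrix.det_fin_three]
  simp⟩

/-- `e_0 ↦ e_0`, `e_1 ↦ -e_2`, `e_2 ↦ e_1` -/
def swp : SL 3 := ⟨!![1, 0, 0; 0, 0, 1; 0, -1, 0], by
  rw [Matrix.det_fin_three]
  simp⟩

section hom

variable {Q : Type} [Group Q] (f : SL 3 →* Q) {M : ℕ}
  (hf : ∀ (i j : Fin 3) (h : i ≠ j) (t : ℤ), f (el i j h (M * t)) = 1)

include hf in
/-- the elements of the block which are congruent to `1` are central modulo the kernel -/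
theorem men_central (c : SL 3) (hc : InBlock c) (hm : Cong M c) (x : SL 3) :
    f c * f x = f x * f c := by
  have hel : ∀ x : SL 3, IsEl x → f c * f x = f x * f c := by
    intro x hx
    have h1 := central 3 le_rfl M f.ker (fun i j h t => hf i j h t) c hc hm x hx
    rw [MonoidHom.mem_ker, map_mul, map_mul, map_mul, map_inv, map_inv] at h1
    rw [mul_inv_eq_one, mul_inv_eq_iff_eq_mul] at h1
    exact h1
  have h2 : x ∈ Subgroup.closure {x : SL 3 | IsEl x} := by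
    rw [gen 3 (by norm_num)]
    trivial
  induction h2 using Subgroup.closure_induction with
  | mem x hx => exact hel x hx
  | one => rw [map_one, mul_one, one_mul]
  | mul x y _ _ h1 h2 => rw [map_mul, ← mul_assoc, h1, mul_assoc, h2, mul_assoc]
  | inv x _ h1 =>
    rw [map_inv, mul_inv_eq_iff_eq_mul, mul_assoc, h1, inv_mul_cancel_left]

include hf in
theorem men_dvd (i j : Fin 3) (h : i ≠ j) (t : ℤ) (ht : (M : ℤ) ∣ t) : f (el i j h t) = 1 := by
  obtain ⟨s, rfl⟩ := ht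
  exact hf i j h s

include hf in
/-- the class depends only on the first row -/
theorem men_row (a b c d c' d' : ℤ) (h : a * d - b * c = 1) (h' : a * d' - b * c' = 1)
    (hc : (M : ℤ) ∣ c) (hc' : (M : ℤ) ∣ c') : f (blk a b c' d' h') = f (blk a b c d h) := by
  have e : blk a b c' d' h' = el 1 0 (by decide) (c' * d - d' * c) * blk a b c d h := by
    apply Subtype.ext
    show _ = (el 1 0 (by decide) (c' * d - d' * c)).1 * (blk a b c d h).1
    rw [el_val3, blk_val, blk_val]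
    ext i j
    fin_cases i <;> fin_cases j <;>
      simp [Matrix.mul_apply, Fin.sum_univ_three, Matrix.single_apply]
    · linear_combination (-c') * h + c * h'
    · linear_combination (-d') * h + d * h'
  rw [e, map_mul, men_dvd f hf 1 0 (by decide) _ (dvd_sub (hc'.mul_right _) (hc.mul_left _)),
    one_mul]

include hf in
/-- a multiple of `M a` may be added to `b` -/
theorem men_b (a b c d c' d' t : ℤ) (h : a * d - b * c = 1) (h' : a * d' - (b + M * t * a) * c' = 1)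
    (hc : (M : ℤ) ∣ c) (hc' : (M : ℤ) ∣ c') :
    f (blk a (b + M * t * a) c' d' h') = f (blk a b c d h) := by
  have h2 : a * (d + M * t * c) - (b + M * t * a) * c = 1 := by linear_combination h
  rw [men_row f hf a (b + M * t * a) c (d + M * t * c) c' d' h2 h' hc hc']
  have e : blk a (b + M * t * a) c (d + M * t * c) h2 =
      blk a b c d h * el 0 1 (by decide) (M * t) := by
    apply Subtype.ext
    show _ = (blk a b c d h).1 * (el 0 1 (by decide) (M * t)).1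
    rw [el_val3, blk_val, blk_val]
    ext i j
    fin_cases i <;> fin_cases j <;>
      simp [Matrix.mul_apply, Fin.sum_univ_three, Matrix.single_apply]
    · ring
    · ring
  rw [e, map_mul, hf, mul_one]

include hf in
/-- a multiple of `b` may be added to `a` -/
theorem men_a (a b c d c' d' t : ℤ) (h : a * d - b * c = 1) (h' : (a + t * b) * d' - b * c' = 1)
    (ha : (M : ℤ) ∣ a - 1) (hb : (M : ℤ) ∣ b) (hc : (M : ℤ) ∣ c) (hd : (M : ℤ) ∣ d - 1)
    (hc' : (M : ℤ) ∣ c') :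
    f (blk (a + t * b) b c' d' h') = f (blk a b c d h) := by
  have h2 : (a + t * b) * (d - t * b) - b * (c + t * d - t * (a + t * b)) = 1 := by
    linear_combination h
  have hc2 : (M : ℤ) ∣ c + t * d - t * (a + t * b) := by
    have e : c + t * d - t * (a + t * b) = c + t * (d - 1) - t * (a - 1) - t * t * b := by ring
    rw [e]
    exact dvd_sub (dvd_sub (dvd_add hc (hd.mul_left _)) (ha.mul_left _)) (hb.mul_left _)
  rw [men_row f hf (a + t * b) b _ _ c' d' h2 h' hc2 hc']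
  have e : blk (a + t * b) b (c + t * d - t * (a + t * b)) (d - t * b) h2 =
      el 1 0 (by decide) (-t) * blk a b c d h * (el 1 0 (by decide) (-t))⁻¹ := by
    rw [rt_inv, neg_neg]
    apply Subtype.ext
    show _ = (el 1 0 (by decide) (-t)).1 * (blk a b c d h).1 * (el 1 0 (by decide) t).1
    rw [el_val3, el_val3, blk_val, blk_val]
    ext i j
    fin_cases i <;> fin_cases j <;>
      simp [Matrix.mul_apply, Fin.sum_univ_three, Matrix.single_apply] <;> ring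
  rw [e, map_mul, map_mul, map_inv,
    ← men_central f hf _ (blk_inBlock a b c d h) (blk_cong M a b c d h ha hb hc hd),
    mul_inv_cancel_right]

include hf in
/-- the class is multiplicative in `b` -/
theorem men_mul (a b₁ c₁ d₁ b₂ c₂ d₂ c d : ℤ) (h₁ : a * d₁ - b₁ * c₁ = 1)
    (h₂ : a * d₂ - b₂ * c₂ = 1) (h : a * d - b₁ * b₂ * c = 1) (ha : (M : ℤ) ∣ a - 1)
    (hb₁ : (M : ℤ) ∣ b₁) (hc₁ : (M : ℤ) ∣ c₁)
    (hb₂ : (M : ℤ) ∣ b₂) (hc₂ : (M : ℤ) ∣ c₂) (hd₂ : (M : ℤ) ∣ d₂ - 1) (hc : (M : ℤ) ∣ c) :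
    f (blk a (b₁ * b₂) c d h) = f (blk a b₁ c₁ d₁ h₁) * f (blk a b₂ c₂ d₂ h₂) := by
  have h3 : a * (d₂ - c₂ * d₁ * b₂) - b₁ * b₂ * (-(c₁ * c₂)) = 1 := by
    linear_combination h₂ - b₂ * c₂ * h₁
  have hd3 : (M : ℤ) ∣ (d₂ - c₂ * d₁ * b₂) - 1 := by
    have e : (d₂ - c₂ * d₁ * b₂) - 1 = (d₂ - 1) - c₂ * d₁ * b₂ := by ring
    rw [e]
    exact dvd_sub hd₂ (hb₂.mul_left _)
  have hc3 : (M : ℤ) ∣ -(c₁ * c₂) := (hc₁.mul_right _).neg_right
  rw [men_row f hf a (b₁ * b₂) (-(c₁ * c₂)) (d₂ - c₂ * d₁ * b₂) c d h3 h hc3 hc]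
  -- conjugate positions
  have k₂ : f (cyc * blk a b₂ c₂ d₂ h₂ * cyc⁻¹) = f (blk a b₂ c₂ d₂ h₂) := by
    rw [map_mul, map_mul, map_inv,
      ← men_central f hf _ (blk_inBlock a b₂ c₂ d₂ h₂) (blk_cong M a b₂ c₂ d₂ h₂ ha hb₂ hc₂ hd₂),
      mul_inv_cancel_right]
  have k₃ : f (swp⁻¹ * blk a (b₁ * b₂) (-(c₁ * c₂)) (d₂ - c₂ * d₁ * b₂) h3 * swp) =
      f (blk a (b₁ * b₂) (-(c₁ * c₂)) (d₂ - c₂ * d₁ * b₂) h3) := by
    rw [map_mul, map_mul, map_inv, mul_assoc, men_central f hf _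
      (blk_inBlock a (b₁ * b₂) (-(c₁ * c₂)) (d₂ - c₂ * d₁ * b₂) h3)
      (blk_cong M a (b₁ * b₂) (-(c₁ * c₂)) (d₂ - c₂ * d₁ * b₂) h3 ha (hb₁.mul_right _) hc3 hd3),
      inv_mul_cancel_left]
  rw [← k₃, ← k₂, ← map_mul]
  have h21 : (2 : Fin 3) ≠ 1 := by decide
  have h01 : (0 : Fin 3) ≠ 1 := by decide
  have h10 : (1 : Fin 3) ≠ 0 := by decide
  have h12 : (1 : Fin 3) ≠ 2 := by decide
  -- the identity
  have key : swp * (el 2 1 h21 (-c₂) * (blk a b₁ c₁ d₁ h₁ * (cyc * blk a b₂ c₂ d₂ h₂ * cyc⁻¹)) *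
      el 0 1 h01 (-b₁) * el 1 0 h10 (-c₁) * el 1 2 h12 (-(d₁ * b₂))) =
      blk a (b₁ * b₂) (-(c₁ * c₂)) (d₂ - c₂ * d₁ * b₂) h3 * swp := by
    have hY : cyc * blk a b₂ c₂ d₂ h₂ * cyc⁻¹ =
        (⟨!![1, 0, 0; 0, a, b₂; 0, c₂, d₂], by
          rw [Matrix.det_fin_three]
          simp
          linarith⟩ : SL 3) := by
      rw [mul_inv_eq_iff_eq_mul]
      apply Subtype.ext
      show cyc.1 * (blk a b₂ c₂ d₂ h₂).1 = !![1, 0, 0; 0, a, b₂; 0, c₂, d₂] * cyc.1
      rw [blk_val]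
      unfold cyc
      ext i j
      fin_cases i <;> fin_cases j <;>
        simp [Matrix.mul_apply, Fin.sum_univ_three]
    rw [hY]
    apply Subtype.ext
    show swp.1 * ((el 2 1 h21 (-c₂)).1 * ((blk a b₁ c₁ d₁ h₁).1 *
      !![1, 0, 0; 0, a, b₂; 0, c₂, d₂]) * (el 0 1 h01 (-b₁)).1 * (el 1 0 h10 (-c₁)).1 *
      (el 1 2 h12 (-(d₁ * b₂))).1) =
      (blk a (b₁ * b₂) (-(c₁ * c₂)) (d₂ - c₂ * d₁ * b₂) h3).1 * swp.1
    have e1 : (blk a b₁ c₁ d₁ h₁).1 * !![1, 0, 0; 0, a, b₂; 0, c₂, d₂] =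
        !![a, b₁ * a, b₁ * b₂; c₁, d₁ * a, d₁ * b₂; 0, c₂, d₂] := by
      rw [blk_val]
      ext i j
      fin_cases i <;> fin_cases j <;> simp [Matrix.mul_apply, Fin.sum_univ_three]
    have e2 : (el 2 1 h21 (-c₂)).1 * !![a, b₁ * a, b₁ * b₂; c₁, d₁ * a, d₁ * b₂; 0, c₂, d₂] =
        !![a, b₁ * a, b₁ * b₂; c₁, d₁ * a, d₁ * b₂;
          -(c₂ * c₁), c₂ - c₂ * (d₁ * a), d₂ - c₂ * (d₁ * b₂)] := by
      rw [el_val3]
      ext i j
      fin_cases i <;> fin_cases j <;>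
        simp [Matrix.mul_apply, Fin.sum_univ_three, Matrix.single_apply] <;> ring
    have e3 : (!![a, b₁ * a, b₁ * b₂; c₁, d₁ * a, d₁ * b₂;
          -(c₂ * c₁), c₂ - c₂ * (d₁ * a), d₂ - c₂ * (d₁ * b₂)] : Matrix (Fin 3) (Fin 3) ℤ) *
          (el 0 1 h01 (-b₁)).1 =
        !![a, 0, b₁ * b₂; c₁, 1, d₁ * b₂; -(c₂ * c₁), 0, d₂ - c₂ * (d₁ * b₂)] := by
      rw [el_val3]
      ext i j
      fin_cases i <;> fin_cases j <;>
        simp [Matrix.mul_apply, Fin.sum_univ_three, Matrix.single_apply]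
      · ring
      · linear_combination h₁
      · linear_combination (-c₂) * h₁
    have e4 : (!![a, 0, b₁ * b₂; c₁, 1, d₁ * b₂; -(c₂ * c₁), 0, d₂ - c₂ * (d₁ * b₂)] :
          Matrix (Fin 3) (Fin 3) ℤ) * (el 1 0 h10 (-c₁)).1 =
        !![a, 0, b₁ * b₂; 0, 1, d₁ * b₂; -(c₂ * c₁), 0, d₂ - c₂ * (d₁ * b₂)] := by
      rw [el_val3]
      ext i j
      fin_cases i <;> fin_cases j <;>
        simp [Matrix.mul_apply, Fin.sum_univ_three, Matrix.single_apply]
    have e5 : (!![a, 0, b₁ * b₂; 0, 1, d₁ * b₂; -(c₂ * c₁), 0, d₂ - c₂ * (d₁ * b₂)] :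
          Matrix (Fin 3) (Fin 3) ℤ) * (el 1 2 h12 (-(d₁ * b₂))).1 =
        !![a, 0, b₁ * b₂; 0, 1, 0; -(c₂ * c₁), 0, d₂ - c₂ * (d₁ * b₂)] := by
      rw [el_val3]
      ext i j
      fin_cases i <;> fin_cases j <;>
        simp [Matrix.mul_apply, Fin.sum_univ_three, Matrix.single_apply]
    rw [e1, e2, e3, e4, e5, blk_val]
    unfold swp
    ext i j
    fin_cases i <;> fin_cases j <;> simp [Matrix.mul_apply, Fin.sum_univ_three] <;> ring
  have hfk := congrArg f key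
  rw [map_mul, map_mul, map_mul, map_mul, map_mul,
    men_dvd f hf 2 1 h21 _ hc₂.neg_right, men_dvd f hf 0 1 h01 _ hb₁.neg_right,
    men_dvd f hf 1 0 h10 _ hc₁.neg_right, men_dvd f hf 1 2 h12 _ (hb₂.mul_left _).neg_right,
    one_mul, mul_one, mul_one, mul_one] at hfk
  rw [mul_assoc, map_mul, map_inv, ← hfk, inv_mul_cancel_left]

end hom

end Pool.Agent.CSPM
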