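import Pool.Agent.CSPM.Men
import Pool.Agent.K89.Van

/-!
The matrices in the upper left block of `SL_3(ℤ)` which are congruent to `1` modulo `M` lie in the
normal closure of the `1 + M x e_ij`: the Mennicke symbols vanish. Only the multiplicativity in `b`
is used: with two primes `p = ± a (mod b)`, `p = 3 (mod 4)`, and `q = -p (mod b (p-1)/2)`.
-/

set_option autoImplicit false

namespace Pool.Agent.CSPM

open Pool.Agent.TAU
open Pool.Agent.K89 (WW ww_mul van_one van_shift van_pow)

section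

variable {Q : Type} [Group Q] {M : ℤ} {s : ℤ → ℤ → Q}

/-- the symbol for `a = ± p` has an order dividing `n` if `x ^ n = ± 1` for all `x` -/
theorem van_order (h1 : ∀ a b t, WW M a b → s (b + t * (M * a)) a = s b a)
    (h2 : ∀ a b t, WW M a b → s b (a + t * b) = s b a)
    (h3 : ∀ a b b', WW M a b → WW M a b' → s (b * b') a = s b a * s b' a)
    (h5 : ∀ b, M ∣ b → s b 1 = 1) (A : ℤ) (hA1 : M ∣ A - 1) (x : ℤ) (hx : IsCoprime A x) (n : ℕ)
    (hn : A ∣ x ^ n - 1 ∨ A ∣ x ^ n + 1) : s (M * x) A ^ n = 1 := by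
  rw [← van_pow h2 h3 h5 hA1 hx]
  rcases hn with ⟨t, ht⟩ | ⟨t, ht⟩
  · have e : x ^ n = 1 + t * A := by linarith
    rw [e, van_shift h1 t hA1 isCoprime_one_right]
    exact van_one h2 h5 hA1 1 (Or.inl rfl)
  · have e : x ^ n = -1 + t * A := by linarith
    rw [e, van_shift h1 t hA1 isCoprime_one_right.neg_right]
    exact van_one h2 h5 hA1 (-1) (Or.inr rfl)

/-- the symbol is trivial -/
theorem van_all (h1 : ∀ a b t, WW M a b → s (b + t * (M * a)) a = s b a)
    (h2 : ∀ a b t, WW M a b → s b (a + t * b) = s b a)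
    (h3 : ∀ a b b', WW M a b → WW M a b' → s (b * b') a = s b a * s b' a)
    (h5 : ∀ b, M ∣ b → s b 1 = 1) (a b : ℤ) (hw : WW M a b) : s b a = 1 := by
  by_cases hb : b = 0
  · subst hb
    have h6 : IsUnit a := isCoprime_zero_right.1 hw.1
    rcases Int.isUnit_iff.1 h6 with rfl | rfl
    · exact h5 0 (dvd_zero _)
    · have h7 := h1 (-1) 0 (-1) hw
      rw [← h7]
      have e : (0 : ℤ) + -1 * (M * -1) = M * 1 := by ring
      rw [e]
      exact van_one h2 h5 hw.2.1 1 (Or.inl rfl)
  · -- an odd `a`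
    obtain ⟨a1, t1, ha1, hodd⟩ : ∃ a1 t1 : ℤ, a1 = a + t1 * b ∧ a1 % 2 = 1 := by
      by_cases h : a % 2 = 1
      · exact ⟨a, 0, by ring, h⟩
      · refine ⟨a + 1 * b, 1, rfl, ?_⟩
        have h2b : b % 2 = 1 := by
          by_contra hc
          have h6 : (2 : ℤ) ∣ a := Int.dvd_of_emod_eq_zero (by omega)
          have h7 : (2 : ℤ) ∣ b := Int.dvd_of_emod_eq_zero (by omega)
          have h8 := hw.1.isUnit_of_dvd' h6 h7
          rw [Int.isUnit_iff] at h8
          omega
        omega
    have hco1 : IsCoprime a1 b := by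
      rw [ha1]
      exact hw.1.add_mul_right_left t1
    obtain ⟨e, he, he4⟩ : ∃ e : ℤ, (e = 1 ∨ e = -1) ∧ (e * a1) % 4 = 3 := by
      rcases (show a1 % 4 = 1 ∨ a1 % 4 = 3 by omega) with h | h
      · exact ⟨-1, Or.inr rfl, by omega⟩
      · exact ⟨1, Or.inl rfl, by omega⟩
    have hee : e * e = 1 := by rcases he with rfl | rfl <;> norm_num
    have hbn : b.natAbs ≠ 0 := Int.natAbs_ne_zero.2 hb
    have hco2 : IsCoprime (e * a1) ((4 * b.natAbs : ℕ) : ℤ) := by
      have h6 : IsCoprime a1 ((4 * b.natAbs : ℕ) : ℤ) := by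
        push_cast
        apply IsCoprime.mul_right
        · have h7 : IsCoprime a1 (2 : ℤ) := by
            rw [isCoprime_comm, Int.isCoprime_iff_gcd_eq_one]
            have h9 : Nat.Coprime 2 a1.natAbs := by
              rw [Nat.coprime_two_left, Nat.odd_iff]
              omega
            exact h9
          have := h7.mul_right h7
          norm_num at this
          exact this
        · rcases abs_choice b with h7 | h7 <;> rw [h7]
          · exact hco1
          · exact hco1.neg_right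
      have h7 : IsCoprime e ((4 * b.natAbs : ℕ) : ℤ) := by
        rcases he with rfl | rfl
        · exact isCoprime_one_left
        · exact isCoprime_one_left.neg_left
      exact h7.mul_left h6
    obtain ⟨p, hp1, hp, hpm⟩ := Nat.forall_exists_prime_gt_and_zmodEq 2
      (mul_ne_zero (by norm_num) hbn) hco2
    have hd : ((4 * b.natAbs : ℕ) : ℤ) ∣ e * a1 - p := (Int.modEq_iff_dvd).1 hpm
    have hd4 : (4 : ℤ) ∣ e * a1 - p := by
      refine dvd_trans ?_ hd
      push_cast
      exact Dvd.intro _ rfl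
    have hdb : b ∣ e * a1 - p := by
      refine dvd_trans ?_ hd
      push_cast
      exact Dvd.dvd.mul_left (by rw [dvd_abs]) _
    have hp4 : p % 4 = 3 := by omega
    obtain ⟨u, hu⟩ := hdb
    obtain ⟨x, hx⟩ := hw.2.2
    -- for `A = e' * P = a + t * b`, `P` prime: order
    have main : ∀ (A t : ℤ), A = a + t * b → s b a = s (M * x) A ∧ M ∣ A - 1 ∧ IsCoprime A x := by
      intro A t hA
      have h6 := h2 a b t hw
      rw [← hA, hx] at h6
      refine ⟨?_, ?_, ?_⟩
      · rw [h6, hx]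
      · have e : A - 1 = (a - 1) + t * b := by rw [hA]; ring
        rw [e]
        exact dvd_add hw.2.1 (hw.2.2.mul_left _)
      · have h7 : IsCoprime A b := by
          rw [hA]
          exact hw.1.add_mul_right_left _
        rw [hx] at h7
        exact h7.of_mul_right_right
    have hA : e * p = a + (t1 - e * u) * b := by
      linear_combination (-e) * hu + hee * a1 + ha1
    obtain ⟨hA0, hA1, hAx⟩ := main (e * p) (t1 - e * u) hA
    obtain ⟨h, hh⟩ : ∃ h, h = p / 2 := ⟨_, rfl⟩
    have hodd : h % 2 = 1 := by omega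
    have hph : p = 2 * h + 1 := by omega
    have hh0 : h ≠ 0 := by omega
    have hepd : ∀ z : ℤ, (p : ℤ) ∣ z → e * p ∣ z := by
      intro z hz
      rcases he with rfl | rfl
      · rwa [one_mul]
      · rw [neg_one_mul]
        exact (neg_dvd).2 hz
    have hpx : ((x : ℤ) : ZMod p) ≠ 0 := by
      intro h0
      rw [ZMod.intCast_zmod_eq_zero_iff_dvd] at h0
      have h6 : IsUnit ((p : ℤ)) := hAx.isUnit_of_dvd' (Dvd.intro_left _ rfl) h0
      have h7 := Int.isUnit_iff_natAbs_eq.1 h6
      simp at h7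
      exact hp.one_lt.ne' h7
    have ho1 : s b a ^ h = 1 := by
      rw [hA0]
      apply van_order h1 h2 h3 h5 (e * p) hA1 x hAx
      have hfp : Fact p.Prime := ⟨hp⟩
      have h6 := ZMod.pow_div_two_eq_neg_one_or_one p hpx
      rw [← hh] at h6
      rcases h6 with h6 | h6
      · left
        apply hepd
        rw [← ZMod.intCast_zmod_eq_zero_iff_dvd]
        push_cast
        rw [h6, sub_self]
      · right
        apply hepd
        rw [← ZMod.intCast_zmod_eq_zero_iff_dvd]
        push_cast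
        rw [h6]
        ring
    -- the second prime `q = -p mod b h`
    have hpb : IsCoprime (p : ℤ) b := by
      have h7 : IsCoprime (e * p) b := by
        rw [hA]
        exact hw.1.add_mul_right_left _
      exact h7.of_mul_left_right
    have hph' : Nat.Coprime p h := by
      rw [Nat.Prime.coprime_iff_not_dvd hp]
      intro hd
      have := Nat.le_of_dvd (Nat.pos_of_ne_zero hh0) hd
      omega
    have hco3 : IsCoprime (-(p : ℤ)) ((b.natAbs * h : ℕ) : ℤ) := by
      apply IsCoprime.neg_left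
      push_cast
      apply IsCoprime.mul_right
      · rcases abs_choice b with h7 | h7 <;> rw [h7]
        · exact hpb
        · exact hpb.neg_right
      · exact Nat.isCoprime_iff_coprime.2 hph'
    obtain ⟨q, _, hq, hqm⟩ := Nat.forall_exists_prime_gt_and_zmodEq 2
      (mul_ne_zero hbn hh0) hco3
    have hdq : ((b.natAbs * h : ℕ) : ℤ) ∣ -(p : ℤ) - q := (Int.modEq_iff_dvd).1 hqm
    have hdqb : b ∣ -(p : ℤ) - q := by
      refine dvd_trans ?_ hdq
      push_cast
      exact Dvd.dvd.mul_right (by rw [dvd_abs]) _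
    have hdqh : (h : ℤ) ∣ -(p : ℤ) - q := by
      refine dvd_trans ?_ hdq
      push_cast
      exact Dvd.intro_left _ rfl
    obtain ⟨w, hw'⟩ := hdqb
    have hA' : -(e * q) = a + (t1 - e * u + e * w) * b := by
      linear_combination hA + e * hw'
    obtain ⟨hB0, hB1, hBx⟩ := main (-(e * q)) (t1 - e * u + e * w) hA'
    have hqx : ((x : ℤ) : ZMod q) ≠ 0 := by
      intro h0
      rw [ZMod.intCast_zmod_eq_zero_iff_dvd] at h0
      have h6 : IsUnit ((q : ℤ)) := hBx.isUnit_of_dvd' ((Dvd.intro_left _ rfl).neg_right) h0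
      have h7 := Int.isUnit_iff_natAbs_eq.1 h6
      simp at h7
      exact hq.one_lt.ne' h7
    have ho2 : s b a ^ (q - 1) = 1 := by
      rw [hB0]
      apply van_order h1 h2 h3 h5 (-(e * q)) hB1 x hBx
      left
      have hfq : Fact q.Prime := ⟨hq⟩
      have h6 := ZMod.pow_card_sub_one_eq_one hqx
      have h7 : (q : ℤ) ∣ x ^ (q - 1) - 1 := by
        rw [← ZMod.intCast_zmod_eq_zero_iff_dvd]
        push_cast
        rw [h6, sub_self]
      rcases he with rfl | rfl
      · rw [one_mul]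
        exact (neg_dvd).2 h7
      · rw [neg_one_mul, neg_neg]
        exact h7
    have hgcd : Nat.gcd h (q - 1) = 1 := by
      have h6 : ((Nat.gcd h (q - 1) : ℕ) : ℤ) ∣ 2 := by
        have h7 : ((Nat.gcd h (q - 1) : ℕ) : ℤ) ∣ (h : ℤ) := by
          exact_mod_cast Nat.gcd_dvd_left _ _
        have h8 : ((Nat.gcd h (q - 1) : ℕ) : ℤ) ∣ ((q - 1 : ℕ) : ℤ) := by
          exact_mod_cast Nat.gcd_dvd_right _ _
        rw [Nat.cast_sub hq.one_lt.le] at h8
        have h9 := dvd_trans h7 hdqh
        have e1 : (2 : ℤ) = -((-(p : ℤ) - q) + ((q : ℤ) - (1 : ℕ)) + 2 * h) := by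
          rw [hph]
          push_cast
          ring
        rw [e1]
        exact (dvd_add (dvd_add h9 h8) (h7.mul_left 2)).neg_right
      have h7 : Nat.gcd h (q - 1) ∣ 2 := by exact_mod_cast h6
      rcases (Nat.dvd_prime Nat.prime_two).1 h7 with h8 | h8
      · exact h8
      · exfalso
        have h9 : 2 ∣ h := h8 ▸ Nat.gcd_dvd_left h (q - 1)
        omega
    have h9 : s b a ^ Nat.gcd h (q - 1) = 1 := pow_gcd_eq_one.2 ⟨ho1, ho2⟩
    rwa [hgcd, pow_one] at h9

end

section

variable {Q : Type} [Group Q] (f : SL 3 →* Q) {M : ℕ}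
  (hf : ∀ (i j : Fin 3) (h : i ≠ j) (t : ℤ), f (el i j h (M * t)) = 1)

/-- the symbol -/
noncomputable def sym (M : ℕ) (b a : ℤ) : Q := by
  classical
  exact if h : ∃ (c d : ℤ) (h : a * d - b * c = 1), (M : ℤ) ∣ c then
    f (blk a b h.choose h.choose_spec.choose h.choose_spec.choose_spec.choose) else 1

include hf in
theorem sym_eq {a b : ℤ} (c d : ℤ) (h : a * d - b * c = 1) (hc : (M : ℤ) ∣ c) :
    sym f M b a = f (blk a b c d h) := by
  have hex : ∃ (c d : ℤ) (h : a * d - b * c = 1), (M : ℤ) ∣ c := ⟨c, d, h, hc⟩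
  unfold sym
  rw [dif_pos hex]
  exact men_row f hf a b c d _ _ h _ hc hex.choose_spec.choose_spec.choose_spec

theorem ww_ex {a b : ℤ} (h : WW M a b) : ∃ c d : ℤ, a * d - b * c = 1 ∧ (M : ℤ) ∣ c ∧
    (M : ℤ) ∣ d - 1 := by
  obtain ⟨u, v, huv⟩ := h.1
  refine ⟨v * (a - 1), u + b * v, by linear_combination huv, h.2.1.mul_left _, ?_⟩
  have e : u + b * v - 1 = (-u) * (a - 1) := by linear_combination huv
  rw [e]
  exact h.2.1.mul_left _

include hf in
/-- the matrices of the block which are congruent to `1` are in the kernel -/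
theorem csp3 (a b c d : ℤ) (h : a * d - b * c = 1) (ha : (M : ℤ) ∣ a - 1) (hb : (M : ℤ) ∣ b)
    (hc : (M : ℤ) ∣ c) : f (blk a b c d h) = 1 := by
  have hW : WW M a b := ⟨⟨d, -c, by linear_combination h⟩, ha, hb⟩
  rw [← sym_eq f hf c d h hc]
  refine van_all (M := (M : ℤ)) (s := sym f M) ?_ ?_ ?_ ?_ a b hW
  · intro a b t hab
    obtain ⟨c, d, h, hc, -⟩ := ww_ex hab
    have h' : a * (d + t * M * c) - (b + t * (M * a)) * c = 1 := by linear_combination h
    rw [sym_eq f hf c d h hc, sym_eq f hf c _ h' hc]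
    have h'' : a * (d + t * M * c) - (b + M * t * a) * c = 1 := by linear_combination h
    have e := men_b f hf a b c d c (d + t * M * c) t h h'' hc hc
    rw [← e]
    congr 1
    apply Subtype.ext
    rw [blk_val, blk_val]
    ext i j
    fin_cases i <;> fin_cases j <;> simp
    ring
  · intro a b t hab
    obtain ⟨c, d, h, hc, hd⟩ := ww_ex hab
    have hab' : WW M (a + t * b) b := ⟨hab.1.add_mul_right_left _, by
      have e : a + t * b - 1 = (a - 1) + t * b := by ring
      rw [e]
      exact dvd_add hab.2.1 (hab.2.2.mul_left _), hab.2.2⟩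
    obtain ⟨c', d', h', hc', -⟩ := ww_ex hab'
    rw [sym_eq f hf c d h hc, sym_eq f hf c' d' h' hc']
    exact men_a f hf a b c d c' d' t h h' hab.2.1 hab.2.2 hc hd hc'
  · intro a b b' hab hab'
    obtain ⟨c₁, d₁, h₁, hc₁, -⟩ := ww_ex hab
    obtain ⟨c₂, d₂, h₂, hc₂, hd₂⟩ := ww_ex hab'
    have hbb : WW M a (b * b') := ⟨hab.1.mul_right hab'.1, hab.2.1, hab.2.2.mul_right _⟩
    obtain ⟨c, d, h, hc, -⟩ := ww_ex hbb
    rw [sym_eq f hf c₁ d₁ h₁ hc₁, sym_eq f hf c₂ d₂ h₂ hc₂, sym_eq f hf c d h hc]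
    exact men_mul f hf a b c₁ d₁ b' c₂ d₂ c d h₁ h₂ h hab.2.1 hab.2.2 hc₁ hab'.2.2 hc₂ hd₂ hc
  · intro b hb
    have h : (1 : ℤ) * 1 - b * 0 = 1 := by ring
    rw [sym_eq f hf 0 1 h (dvd_zero _)]
    have e : blk 1 b 0 1 h = el 0 1 (by decide) b := by
      apply Subtype.ext
      rw [blk_val, el_val3]
      ext i j
      fin_cases i <;> fin_cases j <;> simp
    rw [e]
    exact men_dvd f hf 0 1 (by decide) b hb

end

end Pool.Agent.CSPM
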